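import Pool.Agent.J6H30.Gal3.Five
import Pool.Agent.W497.FS.Fact

set_option autoImplicit false
set_option linter.unusedSectionVars false
set_option linter.unusedVariables false

/-! # The second gamma-number of a complex and of a vertex link -/

namespace Pool.Agent.J6H30.Gal3

open Pool.Agent.W497.FS Pool.Agent.TH417.Gal Pool.Agent.J6H30.Gal2

variable {α : Type} [DecidableEq α] {H : SimpleGraph α}

/-- every vertex of the link of `v` has a neighbour which is not a neighbour of `v` -/
theorem exists_far {D : ℕ} {W : Finset α} (hW : NP H (D + 2) W) {v a : α} (hv : v ∈ W)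
    (ha : a ∈ lk H W v) : ∃ w ∈ nn H W v, H.Adj a w := by
  obtain ⟨haW, hva⟩ := mem_lk.1 ha
  have hvL : v ∈ lk H W a := mem_lk.2 ⟨hv, hva.symm⟩
  obtain ⟨w, hw, hwv, hvw⟩ := (hW.lk haW).exists_nonadj hvL
  exact ⟨w, mem_nn.2 ⟨lk_subset hw, hwv, hvw⟩, (mem_lk.1 hw).2⟩

/-- the non-neighbours of a vertex are connected -/
theorem sconn_nn (d : ℕ) : ∀ {W : Finset α}, NP H (d + 2) W → ∀ {v : α}, v ∈ W →
    SConn H (nn H W v) := by
  induction d with
  | zero =>
    intro W hW v hv A hA hne hneq
    by_contra hcon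
    push Not at hcon
    -- a polygon
    have hL2 : NP H 1 (lk H W v) := hW.lk hv
    have hdel := Pool.Agent.W605.FS.Del.main α inferInstance H 0 W v hW hv
    have hcl : ∀ (A : Finset α), A ⊆ nn H W v → A.Nonempty →
        (∀ a ∈ A, ∀ b ∈ nn H W v, b ∉ A → ¬ H.Adj a b) →
        ∃ a ∈ lk H W v, ∃ w ∈ A, H.Adj a w := by
      intro A hA hne hcon
      have hAW : A ⊆ W := fun x hx => (mem_nn.1 (hA hx)).1
      obtain ⟨a, ha, b, hb, hbA, hab⟩ := hW.2.1 A hAW hne
        (fun h => (mem_nn.1 (hA (h ▸ hv))).2.1 rfl)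
      refine ⟨b, ?_, a, ha, hab.symm⟩
      by_cases hbn : b ∈ nn H W v
      · exact absurd hab (hcon a ha b hbn hbA)
      · by_contra hbL
        apply hbn
        refine mem_nn.2 ⟨hb, ?_, fun h => hbL (mem_lk.2 ⟨hb, h⟩)⟩
        rintro rfl
        exact (mem_nn.1 (hA ha)).2.2 hab.symm
    obtain ⟨a1, ha1, w1, hw1, haw1⟩ := hcl A hA hne hcon
    have hB : (nn H W v \ A).Nonempty := by
      rw [Finset.sdiff_nonempty]
      exact fun h => hneq (Finset.Subset.antisymm hA h)
    obtain ⟨a2, ha2, w2, hw2, haw2⟩ := hcl (nn H W v \ A) Finset.sdiff_subset hB (by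
      intro a ha b hb hbn hab
      obtain ⟨h1, h2⟩ := Finset.mem_sdiff.1 ha
      have hbA : b ∈ A := by
        by_contra h
        exact hbn (Finset.mem_sdiff.2 ⟨hb, h⟩)
      exact hcon b hbA a h1 h2 hab.symm)
    obtain ⟨hw2n, hw2A⟩ := Finset.mem_sdiff.1 hw2
    -- each vertex of the link has exactly one neighbour other than `v`
    have huniq : ∀ a ∈ lk H W v, ∀ w ∈ nn H W v, ∀ w' ∈ nn H W v, H.Adj a w → H.Adj a w' →
        w = w' := by
      intro a ha w hw w' hw' h1 h2
      obtain ⟨haW, hva⟩ := mem_lk.1 ha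
      have h3 : (lk H W a).card = 2 := (hW.lk haW).1
      by_contra hww
      have h4 : ({v, w, w'} : Finset α) ⊆ lk H W a := by
        intro x hx
        simp only [Finset.mem_insert, Finset.mem_singleton] at hx
        rcases hx with rfl | rfl | rfl
        · exact mem_lk.2 ⟨hv, hva.symm⟩
        · exact mem_lk.2 ⟨(mem_nn.1 hw).1, h1⟩
        · exact mem_lk.2 ⟨(mem_nn.1 hw').1, h2⟩
      have h5 : ({v, w, w'} : Finset α).card = 3 := by
        rw [Finset.card_eq_three]
        exact ⟨v, w, w', (mem_nn.1 hw).2.1.symm, (mem_nn.1 hw').2.1.symm, hww, rfl⟩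
      have := Finset.card_le_card h4
      omega
    have ha12 : a1 ≠ a2 := by
      rintro rfl
      exact hw2A (huniq a1 ha1 w1 (hA hw1) w2 hw2n haw1 haw2 ▸ hw1)
    have hL : lk H W v = {a1, a2} := by
      symm
      refine Finset.eq_of_subset_of_card_le ?_ ?_
      · intro x hx
        rcases Finset.mem_insert.1 hx with h | h
        · rw [h]; exact ha1
        · rw [Finset.mem_singleton.1 h]; exact ha2
      · rw [hL2.1, Finset.card_pair ha12]
    -- `A ∪ {a1}` is closed in `W \ {v}`
    obtain ⟨a, ha, b, hb, hbA, hab⟩ := hdel (insert a1 A) (by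
        intro x hx
        rcases Finset.mem_insert.1 hx with rfl | hx
        · exact Finset.mem_erase.2 ⟨(mem_lk.1 ha1).2.ne.symm, lk_subset ha1⟩
        · exact Finset.mem_erase.2 ⟨(mem_nn.1 (hA hx)).2.1, (mem_nn.1 (hA hx)).1⟩)
      (Finset.insert_nonempty _ _) (by
        intro h
        have : a2 ∈ W.erase v := Finset.mem_erase.2 ⟨(mem_lk.1 ha2).2.ne.symm, lk_subset ha2⟩
        rw [← h, Finset.mem_insert] at this
        rcases this with h1 | h1
        · exact ha12 h1.symm
        · exact (mem_nn.1 (hA h1)).2.2 (mem_lk.1 ha2).2)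
    rw [Finset.mem_insert, not_or] at hbA
    obtain ⟨hbv, hbW⟩ := Finset.mem_erase.1 hb
    have hb' : b = a2 ∨ b ∈ nn H W v := by
      by_cases h : H.Adj v b
      · have : b ∈ lk H W v := mem_lk.2 ⟨hbW, h⟩
        rw [hL, Finset.mem_insert, Finset.mem_singleton] at this
        rcases this with h1 | h1
        · exact absurd h1 hbA.1
        · exact Or.inl h1
      · exact Or.inr (mem_nn.2 ⟨hbW, hbv, h⟩)
    rcases Finset.mem_insert.1 ha with rfl | ha
    · rcases hb' with rfl | hb'
      · exact hL2.2 a ha1 b ha2 hab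
      · exact hbA.2 (huniq a ha1 w1 (hA hw1) b hb' haw1 hab ▸ hw1)
    · rcases hb' with rfl | hb'
      · exact hw2A (huniq b ha2 a (hA ha) w2 hw2n hab.symm haw2 ▸ ha)
      · exact hcon a ha b hb' hbA.2 hab
  | succ d ih =>
    intro W hW v hv A hA hne hneq
    by_contra hcon
    push Not at hcon
    have hL := hW.lk hv
    -- each vertex of the link sees one side only
    have hside : ∀ a ∈ lk H W v, (∀ w ∈ nn H W v, H.Adj a w → w ∈ A) ∨
        (∀ w ∈ nn H W v, H.Adj a w → w ∉ A) := by
      intro a ha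
      obtain ⟨haW, hva⟩ := mem_lk.1 ha
      have hvL : v ∈ lk H W a := mem_lk.2 ⟨hv, hva.symm⟩
      have h1 := ih (hW.lk haW) hvL
      by_contra hno
      push Not at hno
      obtain ⟨⟨w1, hw1, haw1, hw1A⟩, w2, hw2, haw2, hw2A⟩ := hno
      have hmem : ∀ w ∈ nn H W v, H.Adj a w → w ∈ nn H (lk H W a) v := by
        intro w hw haw
        obtain ⟨h2, h3, h4⟩ := mem_nn.1 hw
        exact mem_nn.2 ⟨mem_lk.2 ⟨h2, haw⟩, h3, h4⟩
      have hmem' : ∀ w ∈ nn H (lk H W a) v, w ∈ nn H W v := by
        intro w hw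
        obtain ⟨h2, h3, h4⟩ := mem_nn.1 hw
        exact mem_nn.2 ⟨lk_subset h2, h3, h4⟩
      obtain ⟨x, hx, y, hy, hyA, hxy⟩ := h1 (A ∩ nn H (lk H W a) v) Finset.inter_subset_right
        ⟨w2, Finset.mem_inter.2 ⟨hw2A, hmem w2 hw2 haw2⟩⟩ (fun h => by
          have h2 := hmem w1 hw1 haw1
          rw [← h] at h2
          exact hw1A (Finset.mem_inter.1 h2).1)
      exact hcon x (Finset.mem_inter.1 hx).1 y (hmem' y hy)
        (fun h => hyA (Finset.mem_inter.2 ⟨h, hy⟩)) hxy
    classical
    set LA : Finset α := (lk H W v).filter (fun a => ∃ w ∈ A, H.Adj a w) with hLA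
    -- adjacent vertices of the link are on the same side
    have hsame : ∀ a ∈ LA, ∀ b ∈ lk H W v, H.Adj a b → b ∈ LA := by
      intro a ha b hb hab
      obtain ⟨haL, w, hw, haw⟩ := Finset.mem_filter.1 ha
      obtain ⟨haW, hva⟩ := mem_lk.1 haL
      obtain ⟨hbW, hvb⟩ := mem_lk.1 hb
      have hvL : v ∈ lk H W a := mem_lk.2 ⟨hv, hva.symm⟩
      have hbL : b ∈ lk H (lk H W a) v := mem_lk.2 ⟨mem_lk.2 ⟨hbW, hab⟩, hvb⟩
      obtain ⟨y, hy, hby⟩ := exists_far (hW.lk haW) hvL hbL
      obtain ⟨h2, h3, h4⟩ := mem_nn.1 hy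
      have hyn : y ∈ nn H W v := mem_nn.2 ⟨lk_subset h2, h3, h4⟩
      have hyA : y ∈ A := by
        rcases hside a haL with h5 | h5
        · exact h5 y hyn (mem_lk.1 h2).2
        · exact absurd hw (h5 w (hA hw) haw)
      exact Finset.mem_filter.2 ⟨hb, y, hyA, hby⟩
    have hLAsub : LA ⊆ lk H W v := Finset.filter_subset _ _
    have hLAor : LA = ∅ ∨ LA = lk H W v := by
      rcases LA.eq_empty_or_nonempty with h1 | h1
      · exact Or.inl h1
      · right
        by_contra h2
        obtain ⟨a, ha, b, hb, hbA, hab⟩ := hL.2.1 LA hLAsub h1 h2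
        exact hbA (hsame a ha b hb hab)
    have hvn : v ∉ nn H W v := fun h => (mem_nn.1 h).2.1 rfl
    rcases hLAor with h0 | h0
    · -- `A` has no neighbour in the link
      obtain ⟨a, ha, b, hb, hbA, hab⟩ := hW.2.1 A (fun x hx => (mem_nn.1 (hA hx)).1) hne
        (fun h => hvn (hA (h ▸ hv)))
      by_cases hbn : b ∈ nn H W v
      · exact hcon a ha b hbn hbA hab
      · have hbL : b ∈ lk H W v := by
          by_contra hbL
          apply hbn
          refine mem_nn.2 ⟨hb, ?_, fun h => hbL (mem_lk.2 ⟨hb, h⟩)⟩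
          rintro rfl
          exact (mem_nn.1 (hA ha)).2.2 hab.symm
        have : b ∈ LA := Finset.mem_filter.2 ⟨hbL, a, ha, hab.symm⟩
        rw [h0] at this
        exact Finset.notMem_empty b this
    · -- the other side has no neighbour in the link
      have hB : (nn H W v \ A).Nonempty := by
        rw [Finset.sdiff_nonempty]
        exact fun h => hneq (Finset.Subset.antisymm hA h)
      have hneW : nn H W v \ A ≠ W := by
        intro h
        have h1 : v ∈ nn H W v \ A := by rw [h]; exact hv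
        exact hvn (Finset.mem_sdiff.1 h1).1
      obtain ⟨a, ha, b, hb, hbA, hab⟩ := hW.2.1 (nn H W v \ A)
        (fun x hx => (mem_nn.1 (Finset.mem_sdiff.1 hx).1).1) hB hneW
      obtain ⟨han, haA⟩ := Finset.mem_sdiff.1 ha
      by_cases hbn : b ∈ nn H W v
      · have hbA' : b ∈ A := by
          by_contra h
          exact hbA (Finset.mem_sdiff.2 ⟨hbn, h⟩)
        exact hcon b hbA' a han haA hab.symm
      · have hbL : b ∈ lk H W v := by
          by_contra hbL
          apply hbn
          refine mem_nn.2 ⟨hb, ?_, fun h => hbL (mem_lk.2 ⟨hb, h⟩)⟩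
          rintro rfl
          exact (mem_nn.1 han).2.2 hab.symm
        have hbLA : b ∈ LA := by rw [h0]; exact hbL
        obtain ⟨-, w, hw, hbw⟩ := Finset.mem_filter.1 hbLA
        rcases hside b hbL with h5 | h5
        · exact haA (h5 a han hab.symm)
        · exact h5 w (hA hw) hbw hw

/-- the defect allowed -/
def RR (t : ℤ) : ℤ := if t ≤ 3 then 0 else (t - 2) * (t - 3)

theorem RR_nonneg (t : ℤ) : 0 ≤ RR t := by
  unfold RR
  split_ifs with h
  · exact le_rfl
  · push Not at h
    nlinarith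

theorem RR_eq {t : ℤ} (h : 3 ≤ t) : RR t = (t - 2) * (t - 3) := by
  unfold RR
  split_ifs with h1
  · have : t = 3 := le_antisymm h1 h
    rw [this]; norm_num
  · rfl

theorem RR_add {a b : ℤ} (ha : 0 ≤ a) (hb : 0 ≤ b) : RR a + RR b ≤ RR (a + b) := by
  have key : ∀ {a b : ℤ}, 0 ≤ b → 3 ≤ a → RR a ≤ RR (a + b) := by
    intro a b hb ha
    rw [RR_eq ha, RR_eq (by linarith)]
    nlinarith
  by_cases h1 : 3 ≤ a
  · by_cases h2 : 3 ≤ b
    · rw [RR_eq h1, RR_eq h2, RR_eq (by linarith)]
      nlinarith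
    · have h3 : RR b = 0 := by
        unfold RR
        rw [if_pos (by linarith)]
      rw [h3, add_zero]
      exact key hb h1
  · have h3 : RR a = 0 := by
      unfold RR
      rw [if_pos (by linarith)]
    rw [h3, zero_add]
    by_cases h2 : 3 ≤ b
    · rw [add_comm]
      exact key ha h2
    · have h4 : RR b = 0 := by
        unfold RR
        rw [if_pos (by linarith)]
      rw [h4]
      exact RR_nonneg _

/-- the two non-adjacent vertices `w`, `y` are adjacent to all others: all vertices can be removed -/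
theorem rem_two {J : Finset α} (hJ : Con H J) {w y : α} (hw : w ∉ J) (hn : ∃ j ∈ J, H.Adj w j)
    (hy : y ∈ J) (hwy : ¬ H.Adj w y) (hc : 3 ≤ J.card) (hadjw : ∀ s ∈ J.erase y, H.Adj w s)
    (hadjy : ∀ s ∈ J.erase y, H.Adj y s) :
    ∀ u ∈ insert w J, Con H ((insert w J).erase u) ∧ ∃ j ∈ (insert w J).erase u, H.Adj u j := by
  have hyw : y ≠ w := fun h => hw (h ▸ hy)
  have e1 : (insert w J).erase y = insert w (J.erase y) := Finset.erase_insert_of_ne hyw.symm
  intro u hu
  by_cases huw : u = w
  · subst huw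
    rw [Finset.erase_insert hw]
    exact ⟨hJ, hn⟩
  by_cases huy : u = y
  · subst huy
    obtain ⟨i, hi⟩ : (J.erase u).Nonempty := by
      rw [← Finset.card_pos, Finset.card_erase_of_mem hy]
      omega
    rw [e1]
    exact ⟨Con.star _ hadjw, i, Finset.mem_insert_of_mem hi, hadjy i hi⟩
  have huJ : u ∈ J := (Finset.mem_insert.1 hu).resolve_left huw
  have hu' : u ∈ J.erase y := Finset.mem_erase.2 ⟨huy, huJ⟩
  have e2 : (insert w J).erase u = insert y (insert w ((J.erase y).erase u)) := by
    ext t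
    simp only [Finset.mem_erase, Finset.mem_insert]
    constructor
    · rintro ⟨ht1, rfl | ht2⟩
      · exact Or.inr (Or.inl rfl)
      · by_cases hty : t = y
        · exact Or.inl hty
        · exact Or.inr (Or.inr ⟨ht1, hty, ht2⟩)
    · rintro (rfl | rfl | ⟨ht1, ht2, ht3⟩)
      · exact ⟨fun h => huy h.symm, Or.inr hy⟩
      · exact ⟨fun h => huw h.symm, Or.inl rfl⟩
      · exact ⟨ht1, Or.inr ht3⟩
  obtain ⟨s, hs⟩ : ((J.erase y).erase u).Nonempty := by
    rw [← Finset.card_pos, Finset.card_erase_of_mem hu', Finset.card_erase_of_mem hy]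
    omega
  rw [e2]
  refine ⟨Con.step (Con.star _ (fun s hs => hadjw s (Finset.mem_of_mem_erase hs))) ?_
    ⟨s, Finset.mem_insert_of_mem hs, hadjy s (Finset.mem_of_mem_erase hs)⟩, w, ?_,
    (hadjw u hu').symm⟩
  · rw [Finset.mem_insert, not_or]
    refine ⟨hyw, fun hh => ?_⟩
    exact (Finset.mem_erase.1 (Finset.mem_of_mem_erase hh)).1 rfl
  · exact Finset.mem_insert_of_mem (Finset.mem_insert_self _ _)

theorem lk_erase_self {K : Finset α} {u : α} : lk H (K.erase u) u = lk H K u := by
  ext x
  rw [mem_lk, mem_lk, Finset.mem_erase]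
  exact ⟨fun h => ⟨h.1.2, h.2⟩, fun h => ⟨⟨h.2.ne.symm, h.1⟩, h.2⟩⟩

/-- the growth of connected sets of non-neighbours -/
theorem grow_large {D : ℕ} {W : Finset α} (hW : NP H (D + 2) W) {v : α} (hv : v ∈ W) (m : ℕ) :
    ∀ {K : Finset α}, Con H K → K ⊆ nn H W v → K.card = m + 5 →
    2 * ((m : ℤ) + 4) * (2 * D + 1) - m * (m + 1) ≤ Psi H W K := by
  induction m with
  | zero =>
    intro K h hK hc
    have := good_five hW hv h hK hc
    rw [hc] at this
    push_cast at this ⊢
    linarith
  | succ m ih =>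
    intro K h hK hc
    have hKW : K ⊆ W := fun x hx => (mem_nn.1 (hK hx)).1
    by_contra hbad
    push Not at hbad
    -- the size of `K` is `k + 1` with `k = m + 5`
    have hstep : ∀ u ∈ K, (Con H (K.erase u) ∧ ∃ j ∈ K.erase u, H.Adj u j) →
        2 * ((m : ℤ) + 4) * (2 * D + 1) - m * (m + 1) + 2 * (2 * D + 1) ≤ Psi H W K ∨
        2 * ((m : ℤ) + 4) * (2 * D + 1) - m * (m + 1) +
          2 * (1 + (lk H W u).card - (lk H K u).card) ≤ Psi H W K := by
      intro u hu ⟨h1, h2⟩
      have hc4 : (K.erase u).card = m + 5 := by rw [Finset.card_erase_of_mem hu]; omega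
      have h3 := ih h1 ((Finset.erase_subset u K).trans hK) hc4
      have h4 := Psi_step hW ((Finset.erase_subset u K).trans hKW)
        (mem_bdy.2 ⟨hKW hu, Finset.notMem_erase u K, h2⟩)
      rw [Finset.insert_erase hu, lk_erase_self] at h4
      rcases h4 with h4 | h4
      · left; linarith
      · right; linarith
    have key : ∀ u ∈ K, (Con H (K.erase u) ∧ ∃ j ∈ K.erase u, H.Adj u j) →
        (lk H W u).card + (m + 5) ≤ (lk H K u).card + (2 * D + 3) := by
      intro u hu hrem
      by_contra hcon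
      push Not at hcon
      have h1 : ((lk H K u).card : ℤ) + (2 * D + 3) + 1 ≤ (lk H W u).card + (m + 5) := by
        exact_mod_cast hcon
      rcases hstep u hu hrem with h2 | h2
      · push_cast at hbad
        nlinarith
      · push_cast at hbad
        nlinarith
    have hdeg : ∀ u ∈ K, (lk H K u).card ≤ m + 5 := by
      intro u hu
      have h1 : lk H K u ⊆ K.erase u := fun x hx =>
        Finset.mem_erase.2 ⟨(mem_lk.1 hx).2.ne.symm, (mem_lk.1 hx).1⟩
      have := Finset.card_le_card h1
      rw [Finset.card_erase_of_mem hu] at this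
      omega
    have hall : ∀ u ∈ K, Con H (K.erase u) ∧ ∃ j ∈ K.erase u, H.Adj u j := by
      cases h with
      | single w => rw [Finset.card_singleton] at hc; omega
      | @step J w h1 h2 h3 =>
        rw [Finset.card_insert_of_notMem h2] at hc
        have hwK : w ∈ insert w J := Finset.mem_insert_self w J
        have h4 := key w hwK (by rw [Finset.erase_insert h2]; exact ⟨h1, h3⟩)
        have h5 := two_mul_card_le hW (hKW hwK)
        rw [lk_insert_self] at h4
        by_cases hfull : ∀ x ∈ J, H.Adj w x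
        · exact rem_star h1 h2 hfull
        push Not at hfull
        obtain ⟨y, hyJ, hwy⟩ := hfull
        have h7 : lk H J w = J.erase y := lk_erase_eq hyJ hwy (by omega)
        have hyw : y ≠ w := fun h => h2 (h ▸ hyJ)
        have e1 : (insert w J).erase y = insert w (J.erase y) :=
          Finset.erase_insert_of_ne hyw.symm
        have hadjw : ∀ s ∈ J.erase y, H.Adj w s := fun s hs => by
          rw [← h7] at hs
          exact (mem_lk.1 hs).2
        have hyK : y ∈ insert w J := Finset.mem_insert_of_mem hyJ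
        obtain ⟨i, hi, hyi⟩ := h1.exists_nbr (by omega) y hyJ
        have hyi' : i ∈ (insert w J).erase y :=
          Finset.mem_erase.2 ⟨hyi.ne.symm, Finset.mem_insert_of_mem hi⟩
        have hconY : Con H ((insert w J).erase y) := by rw [e1]; exact Con.star _ hadjw
        have h8 := key y hyK ⟨hconY, i, hyi', hyi⟩
        have h9 := two_mul_card_le hW (hKW hyK)
        have h10 : lk H (insert w J) y ⊆ J.erase y := by
          intro x hx
          obtain ⟨hx1, hx2⟩ := mem_lk.1 hx
          rcases Finset.mem_insert.1 hx1 with rfl | hx1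
          · exact absurd hx2.symm hwy
          · exact Finset.mem_erase.2 ⟨hx2.ne.symm, hx1⟩
        have h11 : lk H (insert w J) y = J.erase y := by
          refine Finset.eq_of_subset_of_card_le h10 ?_
          rw [Finset.card_erase_of_mem hyJ]
          omega
        have hadjy : ∀ s ∈ J.erase y, H.Adj y s := fun s hs => by
          rw [← h11] at hs
          exact (mem_lk.1 hs).2
        exact rem_two h1 h2 h3 hyJ hwy (by omega) hadjw hadjy
    have hup := Psi_upper hW hv hK h.nonempty
    have hterm : ∀ u ∈ K, (2 * ((lk H W u).card : ℤ) - (lk H K u).card) ≤ 4 * D + 1 - m := by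
      intro u hu
      have h1 := key u hu (hall u hu)
      have h2 := hdeg u hu
      have h3 : ((lk H W u).card : ℤ) + (m + 5) ≤ (lk H K u).card + (2 * D + 3) := by
        exact_mod_cast h1
      have h4 : ((lk H K u).card : ℤ) ≤ m + 5 := by exact_mod_cast h2
      linarith
    have hsum : 2 * ∑ w ∈ K, ((lk H W w).card : ℤ) - dg H K =
        ∑ w ∈ K, (2 * ((lk H W w).card : ℤ) - (lk H K w).card) := by
      rw [Finset.sum_sub_distrib, ← Finset.mul_sum, dg]
      push_cast
      ring
    have h4 := Finset.sum_le_card_nsmul K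
      (fun w => (2 * ((lk H W w).card : ℤ) - (lk H K w).card)) (4 * D + 1 - m) hterm
    rw [hc, nsmul_eq_mul] at h4
    obtain ⟨u, hu⟩ := h.nonempty
    have h5 : ((lk H K u).card : ℤ) ≤ m + 5 := by exact_mod_cast hdeg u hu
    have h6 : (2 * ((D : ℤ) + 1)) ≤ (lk H W u).card := by
      exact_mod_cast two_mul_card_le hW (hKW hu)
    rw [hsum] at hup
    push_cast at h4
    rcases hstep u hu (hall u hu) with h7 | h7
    · nlinarith
    · nlinarith

theorem grow {D : ℕ} {W : Finset α} (hW : NP H (D + 2) W) {v : α} (hv : v ∈ W) {J : Finset α}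
    (h : Con H J) (hJ : J ⊆ nn H W v) :
    2 * ((J.card : ℤ) - 1) * (2 * D + 1) - RR ((J.card : ℤ) - 2) ≤ Psi H W J := by
  have hJW : J ⊆ W := fun x hx => (mem_nn.1 (hJ hx)).1
  have hP := RR_nonneg ((J.card : ℤ) - 2)
  rcases Nat.lt_or_ge J.card 5 with hlt | hge
  · have hgood : 2 * ((J.card : ℤ) - 1) * (2 * D + 1) ≤ Psi H W J := by
      rcases Nat.lt_or_ge J.card 4 with h4 | h4
      · exact good_three hW h hJW (by omega)
      · exact good_four hW hv h hJ (by omega)
    linarith
  · obtain ⟨m, hm⟩ : ∃ m, J.card = m + 5 := ⟨J.card - 5, by omega⟩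
    have h1 := grow_large hW hv m h hJ hm
    have h2 : (J.card : ℤ) = m + 5 := by exact_mod_cast hm
    rw [h2, RR_eq (by linarith [Int.natCast_nonneg m])]
    have e1 : 2 * ((m : ℤ) + 5 - 1) * (2 * D + 1) - ((m : ℤ) + 5 - 2 - 2) * ((m : ℤ) + 5 - 2 - 3) =
        2 * ((m : ℤ) + 4) * (2 * D + 1) - m * (m + 1) := by ring
    rw [e1]
    exact h1

/-- the set of all non-neighbours -/
theorem con_nn {D : ℕ} {W : Finset α} (hW : NP H (D + 2) W) {v : α} (hv : v ∈ W) :
    Con H (nn H W v) := by
  have hne := hW.nn_nonempty hv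
  have hs := sconn_nn D hW hv
  have key : ∀ n : ℕ, n + 1 ≤ (nn H W v).card → ∃ J ⊆ nn H W v, Con H J ∧ J.card = n + 1 := by
    intro n
    induction n with
    | zero =>
      intro _
      obtain ⟨w, hw⟩ := hne
      exact ⟨{w}, Finset.singleton_subset_iff.2 hw, Con.single w, Finset.card_singleton w⟩
    | succ n ih =>
      intro hc
      obtain ⟨J, hJ, hcon, hJc⟩ := ih (by omega)
      have hneq : J ≠ nn H W v := fun h => by rw [h] at hJc; omega
      obtain ⟨a, ha, b, hb, hbJ, hab⟩ := hs J hJ hcon.nonempty hneq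
      exact ⟨insert b J, Finset.insert_subset hb hJ, Con.step hcon hbJ ⟨a, ha, hab.symm⟩, by
        rw [Finset.card_insert_of_notMem hbJ, hJc]⟩
  have hpos := Finset.card_pos.2 hne
  obtain ⟨J, hJ, hcon, hJc⟩ := key ((nn H W v).card - 1) (by omega)
  have : J = nn H W v := Finset.eq_of_subset_of_card_le hJ (by omega)
  rwa [this] at hcon

/-- the degree sum in terms of a vertex link and the non-neighbours -/
theorem dg_vertex {D : ℕ} {W : Finset α} (hW : NP H (D + 2) W) {v : α} (hv : v ∈ W) :
    (dg H W : ℤ) = dg H (lk H W v) + 4 * (lk H W v).card + Psi H W (nn H W v) := by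
  classical
  set L := lk H W v with hL
  set I := nn H W v with hI
  have hvL : v ∉ L := not_mem_lk_self
  have hvI : v ∉ I := fun h => (mem_nn.1 h).2.1 rfl
  have hLI : Disjoint L I := by
    rw [Finset.disjoint_left]
    intro x h1 h2
    exact (mem_nn.1 h2).2.2 (mem_lk.1 h1).2
  have hWeq : W = insert v (L ∪ I) := by
    ext x
    rw [Finset.mem_insert, Finset.mem_union, hL, hI, mem_lk, mem_nn]
    constructor
    · intro hx
      by_cases h1 : x = v
      · exact Or.inl h1
      · by_cases h2 : H.Adj v x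
        · exact Or.inr (Or.inl ⟨hx, h2⟩)
        · exact Or.inr (Or.inr ⟨hx, h1, h2⟩)
    · rintro (rfl | h1 | h1)
      · exact hv
      · exact h1.1
      · exact h1.1
  have hbdy : bdy H W I = L := by
    ext x
    rw [mem_bdy]
    constructor
    · rintro ⟨h1, h2, u, hu, hxu⟩
      by_contra h3
      apply h2
      refine mem_nn.2 ⟨h1, ?_, fun h => h3 (mem_lk.2 ⟨h1, h⟩)⟩
      rintro rfl
      exact (mem_nn.1 hu).2.2 hxu
    · intro h1
      obtain ⟨w, hw, hxw⟩ := exists_far hW hv h1
      exact ⟨lk_subset h1, fun h2 => Finset.disjoint_left.1 hLI h1 h2, w, hw, hxw⟩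
  have hvLI : v ∉ L ∪ I := by
    rw [Finset.mem_union, not_or]
    exact ⟨hvL, hvI⟩
  have h1 : dg H W = L.card + (∑ a ∈ L, (lk H W a).card + ∑ w ∈ I, (lk H W w).card) := by
    have e1 : dg H W = ∑ u ∈ insert v (L ∪ I), (lk H W u).card := by
      rw [dg]
      exact Finset.sum_congr hWeq (fun _ _ => rfl)
    rw [e1, Finset.sum_insert hvLI, Finset.sum_union hLI, ← hL]
  have h2 : ∀ a ∈ L, (lk H W a).card = 1 + (lk H L a).card + (lk H I a).card := by
    intro a ha
    have e1 : lk H W a = insert v (lk H L a ∪ lk H I a) := by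
      ext x
      constructor
      · intro hx
        obtain ⟨h3, h4⟩ := mem_lk.1 hx
        have h3' : x ∈ insert v (L ∪ I) := by rw [← hWeq]; exact h3
        rcases Finset.mem_insert.1 h3' with h5 | h5
        · exact Finset.mem_insert.2 (Or.inl h5)
        · rcases Finset.mem_union.1 h5 with h5 | h5
          · exact Finset.mem_insert_of_mem (Finset.mem_union_left _ (mem_lk.2 ⟨h5, h4⟩))
          · exact Finset.mem_insert_of_mem (Finset.mem_union_right _ (mem_lk.2 ⟨h5, h4⟩))
      · intro hx
        rcases Finset.mem_insert.1 hx with h5 | h5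
        · rw [h5]
          exact mem_lk.2 ⟨hv, (mem_lk.1 ha).2.symm⟩
        · rcases Finset.mem_union.1 h5 with h5 | h5
          · exact mem_lk.2 ⟨lk_subset (mem_lk.1 h5).1, (mem_lk.1 h5).2⟩
          · exact mem_lk.2 ⟨(mem_nn.1 (mem_lk.1 h5).1).1, (mem_lk.1 h5).2⟩
    rw [e1, Finset.card_insert_of_notMem, Finset.card_union_of_disjoint]
    · ring
    · exact Finset.disjoint_of_subset_left lk_subset
        (Finset.disjoint_of_subset_right lk_subset hLI)
    · rw [Finset.mem_union, not_or]
      exact ⟨fun h => hvL (lk_subset h), fun h => hvI (lk_subset h)⟩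
  have h3 : ∀ w ∈ I, (lk H W w).card = (lk H L w).card + (lk H I w).card := by
    intro w hw
    have e1 : lk H W w = lk H L w ∪ lk H I w := by
      ext x
      constructor
      · intro hx
        obtain ⟨h3, h4⟩ := mem_lk.1 hx
        have h3' : x ∈ insert v (L ∪ I) := by rw [← hWeq]; exact h3
        rcases Finset.mem_insert.1 h3' with h5 | h5
        · rw [h5] at h4
          exact absurd h4.symm (mem_nn.1 hw).2.2
        · rcases Finset.mem_union.1 h5 with h5 | h5
          · exact Finset.mem_union_left _ (mem_lk.2 ⟨h5, h4⟩)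
          · exact Finset.mem_union_right _ (mem_lk.2 ⟨h5, h4⟩)
      · intro hx
        rcases Finset.mem_union.1 hx with h5 | h5
        · exact mem_lk.2 ⟨lk_subset (mem_lk.1 h5).1, (mem_lk.1 h5).2⟩
        · exact mem_lk.2 ⟨(mem_nn.1 (mem_lk.1 h5).1).1, (mem_lk.1 h5).2⟩
    rw [e1, Finset.card_union_of_disjoint]
    exact Finset.disjoint_of_subset_left lk_subset
        (Finset.disjoint_of_subset_right lk_subset hLI)
  have h4 : ∑ a ∈ L, (lk H I a).card = ∑ w ∈ I, (lk H L w).card := by
    have e1 : ∀ a ∈ L, (lk H I a).card = ∑ w ∈ I, if H.Adj a w then 1 else 0 := by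
      intro a _
      rw [← Finset.card_filter]
      congr 1
    have e2 : ∀ w ∈ I, (lk H L w).card = ∑ a ∈ L, if H.Adj a w then 1 else 0 := by
      intro w _
      rw [← Finset.card_filter]
      congr 1
      ext x
      rw [mem_lk, Finset.mem_filter, H.adj_comm]
    rw [Finset.sum_congr rfl e1, Finset.sum_congr rfl e2, Finset.sum_comm]
  have h5 : ∑ a ∈ L, (lk H W a).card = L.card + dg H L + ∑ w ∈ I, (lk H L w).card := by
    rw [Finset.sum_congr rfl h2, Finset.sum_add_distrib, Finset.sum_add_distrib, h4, dg,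
      Finset.sum_const, smul_eq_mul, mul_one]
  have h6 : ∑ w ∈ I, (lk H W w).card = ∑ w ∈ I, (lk H L w).card + dg H I := by
    rw [Finset.sum_congr rfl h3, Finset.sum_add_distrib, dg]
  have h7 : (∑ w ∈ I, ((lk H W w).card : ℤ)) = ((∑ w ∈ I, (lk H W w).card : ℕ) : ℤ) := by
    push_cast
    rfl
  rw [Psi, hbdy, h7, h6, h1, h5, h6]
  push_cast
  ring

end Pool.Agent.J6H30.Gal3
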