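import Pool.Agent.J6H30.Gal3.Small

set_option autoImplicit false
set_option linter.unusedSectionVars false
set_option linter.unusedVariables false

/-! # Connected sets with five vertices -/

namespace Pool.Agent.J6H30.Gal3

open Pool.Agent.W497.FS Pool.Agent.TH417.Gal Pool.Agent.J6H30.Gal2

variable {α : Type} [DecidableEq α] {H : SimpleGraph α} {W : Finset α}

theorem lk_insert_self {J : Finset α} {w : α} : lk H (insert w J) w = lk H J w := by
  ext x
  rw [mem_lk, mem_lk, Finset.mem_insert]
  constructor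
  · rintro ⟨rfl | h1, h2⟩
    · exact absurd rfl h2.ne
    · exact ⟨h1, h2⟩
  · rintro ⟨h1, h2⟩
    exact ⟨Or.inr h1, h2⟩

/-- the case of a clique -/
theorem clique_five {D : ℕ} (hW : NP H (D + 2) W) {K : Finset α} (hKW : K ⊆ W) (hc : K.card = 5)
    (hprop : ∀ u ∈ K, (lk H K u).card = 4 ∧ (lk H W u).card = 2 * D + 3) :
    8 * (2 * (D : ℤ) + 1) ≤ Psi H W K := by
  have hadj : ∀ a ∈ K, ∀ b ∈ K, a ≠ b → H.Adj a b := by
    intro a ha b hb hab
    have h1 : lk H K a = K.erase a := by
      refine Finset.eq_of_subset_of_card_le (fun x hx => Finset.mem_erase.2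
        ⟨(mem_lk.1 hx).2.ne.symm, (mem_lk.1 hx).1⟩) ?_
      rw [Finset.card_erase_of_mem ha, (hprop a ha).1]
      omega
    have h2 : b ∈ lk H K a := by rw [h1]; exact Finset.mem_erase.2 ⟨hab.symm, hb⟩
    exact (mem_lk.1 h2).2
  obtain ⟨u, hu⟩ : K.Nonempty := by rw [← Finset.card_pos]; omega
  have huW := hKW hu
  have hM := hW.lk huW
  have hMc : (lk H W u).card = 2 * (D + 1) + 1 := by rw [(hprop u hu).2]; ring
  have hSM : K.erase u ⊆ lk H W u := by
    intro x hx
    obtain ⟨h1, h2⟩ := Finset.mem_erase.1 hx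
    exact mem_lk.2 ⟨hKW h2, hadj u hu x h2 h1.symm⟩
  obtain ⟨s, hs, hs1⟩ := pent_clique hM hMc hSM (by rw [Finset.card_erase_of_mem hu]; omega)
    (fun a ha b hb hab => hadj a (Finset.mem_of_mem_erase ha) b (Finset.mem_of_mem_erase hb) hab)
  obtain ⟨hsu, hsK⟩ := Finset.mem_erase.1 hs
  have hsW := hKW hsK
  have hlk : (lk H (lk H W u) s).card = 2 * D + 1 := by
    have := card_eq_lk_nn (H := H) (hSM hs)
    omega
  have hF : 2 * D + 1 ≤ (Fst H W {u} s).card := by
    rw [← hlk]
    refine Finset.card_le_card (fun x hx => ?_)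
    obtain ⟨h1, h2⟩ := mem_lk.1 hx
    obtain ⟨h3, h4⟩ := mem_lk.1 h1
    refine mem_Fst.2 ⟨mem_lk.2 ⟨h3, h2⟩, ?_, u, Finset.mem_singleton_self u, h4.symm⟩
    rw [Finset.mem_singleton]
    exact h4.ne.symm
  have hF' : (2 * (D : ℤ) + 1) ≤ (Fst H W {u} s).card := by exact_mod_cast hF
  have huS : ({u} : Finset α) ⊆ W := Finset.singleton_subset_iff.2 huW
  have hP2 := Psi_insert (H := H) huS (mem_bdy.2 ⟨hsW, by rw [Finset.mem_singleton]; exact hsu,
    u, Finset.mem_singleton_self u, hadj s hsK u hu hsu⟩)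
  rw [Psi_single huW] at hP2
  -- the other three vertices
  have hT : ((K.erase u).erase s).card = 3 := by
    rw [Finset.card_erase_of_mem hs, Finset.card_erase_of_mem hu]
    omega
  obtain ⟨x, y, z, hxy, hxz, hyz, hxyz⟩ := Finset.card_eq_three.1 hT
  have hmem : ∀ t, t = x ∨ t = y ∨ t = z → t ∈ K ∧ t ≠ u ∧ t ≠ s := by
    intro t ht
    have : t ∈ (K.erase u).erase s := by
      rw [hxyz]
      simp only [Finset.mem_insert, Finset.mem_singleton]
      exact ht
    obtain ⟨h1, h2⟩ := Finset.mem_erase.1 this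
    obtain ⟨h3, h4⟩ := Finset.mem_erase.1 h2
    exact ⟨h4, h3, h1⟩
  obtain ⟨hxK, hxu, hxs⟩ := hmem x (Or.inl rfl)
  obtain ⟨hyK, hyu, hys⟩ := hmem y (Or.inr (Or.inl rfl))
  obtain ⟨hzK, hzu, hzs⟩ := hmem z (Or.inr (Or.inr rfl))
  have hKe : K = insert z (insert y (insert x (insert s {u}))) := by
    have h1 : K = insert u (insert s ((K.erase u).erase s)) := by
      rw [Finset.insert_erase hs, Finset.insert_erase hu]
    rw [h1, hxyz]
    ext t
    simp only [Finset.mem_insert, Finset.mem_singleton]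
    tauto
  have hJ2 : insert s ({u} : Finset α) ⊆ W := Finset.insert_subset hsW huS
  have hJ3 : insert x (insert s ({u} : Finset α)) ⊆ W := Finset.insert_subset (hKW hxK) hJ2
  have hJ4 : insert y (insert x (insert s ({u} : Finset α))) ⊆ W :=
    Finset.insert_subset (hKW hyK) hJ3
  have hcard2 : (insert s ({u} : Finset α)).card = 2 := by
    rw [Finset.card_insert_of_notMem (by rw [Finset.mem_singleton]; exact hsu),
      Finset.card_singleton]
  have hx2 : x ∉ insert s ({u} : Finset α) := by
    simp only [Finset.mem_insert, Finset.mem_singleton, not_or]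
    exact ⟨hxs, hxu⟩
  have hy3 : y ∉ insert x (insert s ({u} : Finset α)) := by
    simp only [Finset.mem_insert, Finset.mem_singleton, not_or]
    exact ⟨hxy.symm, hys, hyu⟩
  have hz4 : z ∉ insert y (insert x (insert s ({u} : Finset α))) := by
    simp only [Finset.mem_insert, Finset.mem_singleton, not_or]
    exact ⟨hyz.symm, hxz.symm, hzs, hzu⟩
  have hcard3 : (insert x (insert s ({u} : Finset α))).card = 3 := by
    rw [Finset.card_insert_of_notMem hx2, hcard2]
  have hcard4 : (insert y (insert x (insert s ({u} : Finset α)))).card = 4 := by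
    rw [Finset.card_insert_of_notMem hy3, hcard3]
  have s3 := Psi_step hW hJ2 (mem_bdy.2 ⟨hKW hxK, hx2, u, by simp, hadj x hxK u hu hxu⟩)
  have s4 := Psi_step hW hJ3 (mem_bdy.2 ⟨hKW hyK, hy3, u, by simp, hadj y hyK u hu hyu⟩)
  have s5 := Psi_step hW hJ4 (mem_bdy.2 ⟨hKW hzK, hz4, u, by simp, hadj z hzK u hu hzu⟩)
  rw [← hKe] at s5
  have c3 : ((lk H (insert s ({u} : Finset α)) x).card : ℤ) ≤ 2 := by
    have := card_lk_le (H := H) (J := insert s ({u} : Finset α)) (w := x)
    rw [hcard2] at this
    exact_mod_cast this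
  have c4 : ((lk H (insert x (insert s ({u} : Finset α))) y).card : ℤ) ≤ 3 := by
    have := card_lk_le (H := H) (J := insert x (insert s ({u} : Finset α))) (w := y)
    rw [hcard3] at this
    exact_mod_cast this
  have c5 : ((lk H (insert y (insert x (insert s ({u} : Finset α)))) z).card : ℤ) ≤ 4 := by
    have := card_lk_le (H := H) (J := insert y (insert x (insert s ({u} : Finset α)))) (w := z)
    rw [hcard4] at this
    exact_mod_cast this
  rw [(hprop x hxK).2] at s3
  rw [(hprop y hyK).2] at s4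
  rw [(hprop z hzK).2] at s5
  push_cast at s3 s4 s5
  rcases s3 with s3 | s3 <;> rcases s4 with s4 | s4 <;> rcases s5 with s5 | s5 <;> linarith

/-- five vertices -/
theorem good_five {D : ℕ} (hW : NP H (D + 2) W) {v : α} (hv : v ∈ W) {K : Finset α}
    (h : Con H K) (hK : K ⊆ nn H W v) (hc : K.card = 5) :
    2 * ((K.card : ℤ) - 1) * (2 * D + 1) ≤ Psi H W K := by
  have hKW : K ⊆ W := fun x hx => (mem_nn.1 (hK hx)).1
  by_contra hbad
  push Not at hbad
  have key : ∀ u ∈ K, (Con H (K.erase u) ∧ ∃ j ∈ K.erase u, H.Adj u j) →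
      2 * ((K.card : ℤ) - 2) * (2 * D + 1) + 2 * (1 + (lk H W u).card - (lk H K u).card) ≤
      Psi H W K ∧ (lk H W u).card + 1 ≤ (lk H K u).card + 2 * D := by
    intro u hu ⟨h1, h2⟩
    have hc4 : (K.erase u).card = 4 := by rw [Finset.card_erase_of_mem hu]; omega
    exact via hW hKW hu h2 (good_four hW hv h1 ((Finset.erase_subset u K).trans hK) hc4) hbad
  have hdeg : ∀ u ∈ K, (lk H K u).card ≤ 4 := by
    intro u hu
    have h1 : lk H K u ⊆ K.erase u := fun x hx =>
      Finset.mem_erase.2 ⟨(mem_lk.1 hx).2.ne.symm, (mem_lk.1 hx).1⟩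
    have := Finset.card_le_card h1
    rw [Finset.card_erase_of_mem hu] at this
    omega
  have hall : ∀ u ∈ K, Con H (K.erase u) ∧ ∃ j ∈ K.erase u, H.Adj u j := by
    cases h with
    | single w => rw [Finset.card_singleton] at hc; omega
    | @step J w h1 h2 h3 =>
      rw [Finset.card_insert_of_notMem h2] at hc
      have hwK : w ∈ insert w J := Finset.mem_insert_self w J
      have h4 := key w hwK (by rw [Finset.erase_insert h2]; exact ⟨h1, h3⟩)
      have h5 := two_mul_card_le hW (hKW hwK)
      rw [lk_insert_self] at h4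
      by_cases hfull : ∀ x ∈ J, H.Adj w x
      · exact rem_star h1 h2 hfull
      push Not at hfull
      obtain ⟨y, hyJ, hwy⟩ := hfull
      have h7 : lk H J w = J.erase y := lk_erase_eq hyJ hwy (by omega)
      have hyw : y ≠ w := fun h => h2 (h ▸ hyJ)
      have e1 : (insert w J).erase y = insert w (J.erase y) :=
        Finset.erase_insert_of_ne hyw.symm
      have hadjw : ∀ s ∈ J.erase y, H.Adj w s := fun s hs => by
        rw [← h7] at hs
        exact (mem_lk.1 hs).2
      have hyK : y ∈ insert w J := Finset.mem_insert_of_mem hyJ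
      obtain ⟨i, hi, hyi⟩ := h1.exists_nbr (by omega) y hyJ
      have hyi' : i ∈ (insert w J).erase y :=
        Finset.mem_erase.2 ⟨hyi.ne.symm, Finset.mem_insert_of_mem hi⟩
      have hconY : Con H ((insert w J).erase y) := by rw [e1]; exact Con.star _ hadjw
      have h8 := key y hyK ⟨hconY, i, hyi', hyi⟩
      have h9 := two_mul_card_le hW (hKW hyK)
      have h10 : lk H (insert w J) y ⊆ J.erase y := by
        intro x hx
        obtain ⟨hx1, hx2⟩ := mem_lk.1 hx
        rcases Finset.mem_insert.1 hx1 with rfl | hx1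
        · exact absurd hx2.symm hwy
        · exact Finset.mem_erase.2 ⟨hx2.ne.symm, hx1⟩
      have h11 : lk H (insert w J) y = J.erase y := by
        refine Finset.eq_of_subset_of_card_le h10 ?_
        rw [Finset.card_erase_of_mem hyJ]
        omega
      have hadjy : ∀ s ∈ J.erase y, H.Adj y s := fun s hs => by
        rw [← h11] at hs
        exact (mem_lk.1 hs).2
      intro u hu
      by_cases huw : u = w
      · subst huw
        rw [Finset.erase_insert h2]
        exact ⟨h1, h3⟩
      by_cases huy : u = y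
      · subst huy
        exact ⟨hconY, i, hyi', hyi⟩
      have huJ : u ∈ J := (Finset.mem_insert.1 hu).resolve_left huw
      have hu' : u ∈ J.erase y := Finset.mem_erase.2 ⟨huy, huJ⟩
      have e2 : (insert w J).erase u = insert y (insert w ((J.erase y).erase u)) := by
        ext t
        simp only [Finset.mem_erase, Finset.mem_insert]
        constructor
        · rintro ⟨ht1, rfl | ht2⟩
          · exact Or.inr (Or.inl rfl)
          · by_cases hty : t = y
            · exact Or.inl hty
            · exact Or.inr (Or.inr ⟨ht1, hty, ht2⟩)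
        · rintro (rfl | rfl | ⟨ht1, ht2, ht3⟩)
          · exact ⟨fun h => huy h.symm, Or.inr hyJ⟩
          · exact ⟨fun h => huw h.symm, Or.inl rfl⟩
          · exact ⟨ht1, Or.inr ht3⟩
      obtain ⟨s, hs⟩ : ((J.erase y).erase u).Nonempty := by
        rw [← Finset.card_pos, Finset.card_erase_of_mem hu', Finset.card_erase_of_mem hyJ]
        omega
      rw [e2]
      refine ⟨Con.step (Con.star _ (fun s hs => hadjw s (Finset.mem_of_mem_erase hs))) ?_
        ⟨s, Finset.mem_insert_of_mem hs, hadjy s (Finset.mem_of_mem_erase hs)⟩, w, ?_,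
        (hadjw u hu').symm⟩
      · rw [Finset.mem_insert, not_or]
        refine ⟨hyw, fun hh => ?_⟩
        exact (Finset.mem_erase.1 (Finset.mem_of_mem_erase hh)).1 rfl
      · exact Finset.mem_insert_of_mem (Finset.mem_insert_self _ _)
  have hup := Psi_upper hW hv hK h.nonempty
  have hterm : ∀ u ∈ K, (2 * ((lk H W u).card : ℤ) - (lk H K u).card) ≤ 4 * D + 2 := by
    intro u hu
    have h1 := (key u hu (hall u hu)).2
    have h2 := hdeg u hu
    have h3 : ((lk H W u).card : ℤ) + 1 ≤ (lk H K u).card + 2 * D := by exact_mod_cast h1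
    have h4 : ((lk H K u).card : ℤ) ≤ 4 := by exact_mod_cast h2
    linarith
  have hsum : 2 * ∑ w ∈ K, ((lk H W w).card : ℤ) - dg H K =
      ∑ w ∈ K, (2 * ((lk H W w).card : ℤ) - (lk H K w).card) := by
    rw [Finset.sum_sub_distrib, ← Finset.mul_sum, dg]
    push_cast
    ring
  have hprop : ∀ u ∈ K, (lk H K u).card = 4 ∧ (lk H W u).card = 2 * D + 3 := by
    intro u1 hu1
    obtain ⟨u0, hu0⟩ : (K.erase u1).Nonempty := by
      rw [← Finset.card_pos, Finset.card_erase_of_mem hu1]; omega
    obtain ⟨hu01, hu0K⟩ := Finset.mem_erase.1 hu0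
    have h1 := (key u0 hu0K (hall u0 hu0K)).1
    have h2 : ∑ w ∈ K, (2 * ((lk H W w).card : ℤ) - (lk H K w).card) =
        (2 * ((lk H W u1).card : ℤ) - (lk H K u1).card) +
        ((2 * ((lk H W u0).card : ℤ) - (lk H K u0).card) +
        ∑ w ∈ (K.erase u1).erase u0, (2 * ((lk H W w).card : ℤ) - (lk H K w).card)) := by
      rw [← Finset.add_sum_erase _ _ hu1, ← Finset.add_sum_erase _ _ hu0]
    have h3 : ∑ w ∈ (K.erase u1).erase u0, (2 * ((lk H W w).card : ℤ) - (lk H K w).card) ≤
        3 * (4 * D + 2) := by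
      have h4 := Finset.sum_le_card_nsmul ((K.erase u1).erase u0)
        (fun w => (2 * ((lk H W w).card : ℤ) - (lk H K w).card)) (4 * D + 2)
        (fun w hw => hterm w (Finset.mem_of_mem_erase (Finset.mem_of_mem_erase hw)))
      rw [Finset.card_erase_of_mem hu0, Finset.card_erase_of_mem hu1, hc] at h4
      simpa using h4
    rw [hsum, h2] at hup
    rw [hc] at h1
    have h5 := hdeg u0 hu0K
    have h6 : ((lk H K u0).card : ℤ) ≤ 4 := by exact_mod_cast h5
    have h7 := hdeg u1 hu1
    have h8 : ((lk H K u1).card : ℤ) ≤ 4 := by exact_mod_cast h7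
    have h9 := (key u1 hu1 (hall u1 hu1)).2
    have h10 : ((lk H W u1).card : ℤ) + 1 ≤ (lk H K u1).card + 2 * D := by exact_mod_cast h9
    push_cast at h1
    constructor
    · have : (4 : ℤ) ≤ (lk H K u1).card := by linarith
      have h11 : 4 ≤ (lk H K u1).card := by exact_mod_cast this
      omega
    · have : (2 * (D : ℤ) + 3) ≤ (lk H W u1).card := by linarith
      have h11 : 2 * D + 3 ≤ (lk H W u1).card := by exact_mod_cast this
      omega
  have h1 := clique_five hW hKW hc hprop
  rw [hc] at hbad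
  push_cast at hbad
  linarith

end Pool.Agent.J6H30.Gal3
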