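import Pool.Agent.J6H30.Gal3.Few

set_option autoImplicit false
set_option linter.unusedSectionVars false
set_option linter.unusedVariables false

/-! # Lower bounds for the second gamma-number in terms of the defect -/

namespace Pool.Agent.J6H30.Gal3

open Pool.Agent.W497.FS Pool.Agent.TH417.Gal Pool.Agent.J6H30.Gal2

variable {α : Type} [DecidableEq α] {H : SimpleGraph α}

/-- twice the second gamma-number of a flag complex of rank `d` on `W` -/
noncomputable def G2 (H : SimpleGraph α) (d : ℤ) (W : Finset α) : ℤ :=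
  dg H W - (4 * d - 6) * W.card + 4 * d * (d - 2)

/-- **comparison with a vertex link**: `γ₂ (W) ≥ γ₂ (lk v) - RR (m - 1) / 2` if `v` has `m + 1`
non-neighbours -/
theorem G2_vertex {D : ℕ} {W : Finset α} (hW : NP H (D + 2) W) {v : α} (hv : v ∈ W) :
    G2 H (D + 1) (lk H W v) - RR (((nn H W v).card : ℤ) - 2) ≤ G2 H (D + 2) W := by
  have h1 := dg_vertex hW hv
  have h2 := grow hW hv (con_nn hW hv) (Finset.Subset.refl _)
  have h3 := card_eq_lk_nn (H := H) hv
  have h4 : (W.card : ℤ) = (lk H W v).card + (nn H W v).card + 1 := by exact_mod_cast h3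
  rw [G2, G2, h1, h4]
  nlinarith

/-- prime complexes -/
theorem G2_prime (d : ℕ) : ∀ {W : Finset α}, NP H (d + 1) W → Prm H W →
    -RR ((W.card : ℤ) + 1 - 3 * (d + 1)) ≤ G2 H (d + 1) W := by
  induction d with
  | zero =>
    intro W hW hp
    have h1 : W.card = 2 := hW.1
    have h2 := RR_nonneg ((W.card : ℤ) + 1 - 3 * ((0 : ℕ) + 1))
    have h3 : (0 : ℤ) ≤ dg H W := by positivity
    rw [G2, h1] at *
    push_cast at *
    linarith
  | succ D ih =>
    intro W hW hp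
    obtain ⟨v, hv, hvp⟩ := exists_prime_link hW hp
    have hL := hW.lk hv
    have h1 := ih hL hvp
    have h2 := G2_vertex hW hv
    have h3 := card_eq_lk_nn (H := H) hv
    have h4 : (W.card : ℤ) = (lk H W v).card + (nn H W v).card + 1 := by exact_mod_cast h3
    have h5 := Prm.three_mul_le hL hvp
    have h6 := Prm.two_le_nn hW hp hv
    have h5' : (3 * ((D : ℤ) + 1)) ≤ (lk H W v).card + 1 := by exact_mod_cast h5
    have h6' : (2 : ℤ) ≤ (nn H W v).card := by exact_mod_cast h6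
    have h7 := RR_add (a := ((lk H W v).card : ℤ) + 1 - 3 * (D + 1))
      (b := ((nn H W v).card : ℤ) - 2) (by linarith) (by linarith)
    have h8 : ((lk H W v).card : ℤ) + 1 - 3 * (D + 1) + (((nn H W v).card : ℤ) - 2) =
        (W.card : ℤ) + 1 - 3 * ((D : ℤ) + 1 + 1) := by
      rw [h4]; ring
    rw [h8] at h7
    have h9 : ((D : ℤ) + 1 + 1) = D + 2 := by ring
    push_cast
    rw [h9] at h7 ⊢
    linarith

theorem G2_join {d₁ d₂ : ℤ} {A B : Finset α} (hAB : Full H A B) :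
    G2 H (d₁ + d₂) (A ∪ B) = G2 H d₁ A + G2 H d₂ B +
      2 * ((A.card - 2 * d₁) * (B.card - 2 * d₂)) := by
  rw [G2, G2, G2, dg_join hAB, Finset.card_union_of_disjoint hAB.disjoint]
  push_cast
  ring

/-- all complexes -/
theorem G2_all {d : ℕ} {W : Finset α} (h : NP H d W) :
    0 ≤ (W.card : ℤ) + (comps H W).card - 3 * d ∧
      -RR ((W.card : ℤ) + (comps H W).card - 3 * d) ≤ G2 H d W := by
  refine join_induction (H := H) (P := fun d W => 0 ≤ (W.card : ℤ) + (comps H W).card - 3 * d ∧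
      -RR ((W.card : ℤ) + (comps H W).card - 3 * d) ≤ G2 H d W) ?_ ?_ ?_ h
  · rw [comps_empty]
    constructor
    · simp
    · have := RR_nonneg 0
      simp [G2, dg]
      exact this
  · intro d W hW hp _
    rw [comps_prm hp, Finset.card_singleton]
    have h1 := G2_prime d hW hp
    have h2 := Prm.three_mul_le hW hp
    have h3 : (3 * ((d : ℤ) + 1)) ≤ W.card + 1 := by exact_mod_cast h2
    push_cast
    exact ⟨by linarith, h1⟩
  · intro d₁ d₂ A B hA hB _ hAB ⟨h1, h2⟩ ⟨h3, h4⟩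
    have e1 : (((d₁ + 1 + (d₂ + 1) : ℕ)) : ℤ) = ((d₁ + 1 : ℕ) : ℤ) + ((d₂ + 1 : ℕ) : ℤ) := by
      push_cast; ring
    rw [e1, G2_join hAB, card_comps_union hAB, Finset.card_union_of_disjoint hAB.disjoint]
    have h5 := RR_add h1 h3
    have h6 : (2 * ((d₁ + 1 : ℕ) : ℤ)) ≤ A.card := by exact_mod_cast hA.two_mul_le
    have h7 : (2 * ((d₂ + 1 : ℕ) : ℤ)) ≤ B.card := by exact_mod_cast hB.two_mul_le
    have h8 : (0 : ℤ) ≤ (A.card - 2 * ((d₁ + 1 : ℕ) : ℤ)) * (B.card - 2 * ((d₂ + 1 : ℕ) : ℤ)) :=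
      mul_nonneg (by linarith) (by linarith)
    have e2 : (((A.card + B.card : ℕ)) : ℤ) + (((comps H A).card + (comps H B).card : ℕ) : ℤ) -
        3 * (((d₁ + 1 : ℕ) : ℤ) + ((d₂ + 1 : ℕ) : ℤ)) =
        ((A.card : ℤ) + (comps H A).card - 3 * ((d₁ + 1 : ℕ) : ℤ)) +
        ((B.card : ℤ) + (comps H B).card - 3 * ((d₂ + 1 : ℕ) : ℤ)) := by
      push_cast; ring
    rw [e2]
    exact ⟨by linarith, by linarith⟩

/-- small factors -/
theorem G2_fac {d : ℕ} {W : Finset α} (h : NP H d W)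
    (hW : FacCond H W (fun c e => c ≤ 3 * e + 2)) : 0 ≤ G2 H d W := by
  revert hW
  refine join_induction (H := H) (P := fun d W => FacCond H W (fun c e => c ≤ 3 * e + 2) →
    0 ≤ G2 H d W) ?_ ?_ ?_ h
  · intro _
    simp [G2, dg]
  · intro d W hW hp _ hF
    obtain ⟨e, he, hge⟩ := hF.prm hW hp
    have h1 := G2_prime d hW hp
    have h2 := Prm.three_mul_le hW hp
    have h3 : (3 * ((d : ℤ) + 1)) ≤ W.card + 1 := by exact_mod_cast h2
    have h4 : W.card ≤ 3 * (d + 1) + 2 := by omega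
    have h5 : (W.card : ℤ) ≤ 3 * ((d : ℤ) + 1) + 2 := by exact_mod_cast h4
    have h6 : RR ((W.card : ℤ) + 1 - 3 * (d + 1)) = 0 := by
      rw [RR, if_pos]
      linarith
    rw [h6] at h1
    push_cast
    linarith
  · intro d₁ d₂ A B hA hB _ hAB h1 h2 hF
    have e1 : (((d₁ + 1 + (d₂ + 1) : ℕ)) : ℤ) = ((d₁ + 1 : ℕ) : ℤ) + ((d₂ + 1 : ℕ) : ℤ) := by
      push_cast; ring
    rw [e1, G2_join hAB]
    have h6 : (2 * ((d₁ + 1 : ℕ) : ℤ)) ≤ A.card := by exact_mod_cast hA.two_mul_le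
    have h7 : (2 * ((d₂ + 1 : ℕ) : ℤ)) ≤ B.card := by exact_mod_cast hB.two_mul_le
    have h8 : (0 : ℤ) ≤ (A.card - 2 * ((d₁ + 1 : ℕ) : ℤ)) * (B.card - 2 * ((d₂ + 1 : ℕ) : ℤ)) :=
      mul_nonneg (by linarith) (by linarith)
    have h9 := h1 (hF.left hAB)
    have h10 := h2 (hF.right hAB)
    linarith

variable {k : Type} [Field k] {n d : ℕ} {S : Finset (Finset (Fin n))}

theorem gamma_G2 (h : IsFlagSphere k d S) (hd : 4 ≤ d) {γ : ℕ → ℤ} (hγ : IsGamma d S γ) :
    2 * γ 2 = G2 (skel S) d (vert S) := by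
  rw [(gamma_two h hd hγ).2, G2]

/-- flag homology spheres -/
theorem sphere_defect (h : IsFlagSphere k d S) (hd : 4 ≤ d) {γ : ℕ → ℤ} (hγ : IsGamma d S γ) :
    -RR ((numVert S : ℤ) + numFactors S - 3 * d) ≤ 2 * γ 2 := by
  rw [numVert_eq, numFactors_eq, gamma_G2 h hd hγ]
  exact (G2_all h.np).2

theorem sphere_fac (h : IsFlagSphere k d S) (hd : 4 ≤ d) {γ : ℕ → ℤ} (hγ : IsGamma d S γ)
    (hC : ∀ C, IsFactor S C → ∃ F ∈ S, F ⊆ C ∧ C.card ≤ 3 * F.card + 2) : 0 ≤ γ 2 := by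
  have h1 := G2_fac h.np (h.facCond (g := fun c e => c ≤ 3 * e + 2) hC)
  rw [← gamma_G2 h hd hγ] at h1
  linarith

end Pool.Agent.J6H30.Gal3
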