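import Pool.Agent.J6H30.Gal3.Main
import Pool.Agent.Y365.FS.Sph

set_option autoImplicit false
set_option linter.unusedSectionVars false
set_option linter.unusedVariables false

/-! # Join factors of rank at most three, or with at most `max (2 e + 6) (3 e + 2)` vertices -/

namespace Pool.Agent.J6H30.Gal3

open Pool.Agent.W497.FS Pool.Agent.TH417.Gal Pool.Agent.J6H30.Gal2 Polynomial

variable {α : Type} [DecidableEq α] {H : SimpleGraph α}

theorem GT_of_coeffs {t : ℕ∞} {d : ℕ} (a : ℕ → ℤ) (ha : ∀ i : ℕ, (i : ℕ∞) < t → 0 ≤ a i) :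
    ∑ i ∈ Finset.range (d / 2 + 1), C (a i) * w ^ i * y ^ (d - 2 * i) ∈ GT t d := by
  refine sum_mem (fun i hi => ?_)
  have hij : 2 * i + (d - 2 * i) = d := by rw [Finset.mem_range] at hi; omega
  have key : ∀ n : ℕ, C (n : ℤ) * w ^ i * y ^ (d - 2 * i) ∈ GT t d := by
    intro n
    have h1 : C (n : ℤ) * w ^ i * y ^ (d - 2 * i) = n • (w ^ i * y ^ (d - 2 * i)) := by
      rw [nsmul_eq_mul, mul_assoc]
      simp
    rw [h1]
    exact AddSubmonoid.nsmul_mem _ (gen_mem t hij) n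
  by_cases hit : (i : ℕ∞) < t
  · obtain ⟨n, hn⟩ := Int.eq_ofNat_of_zero_le (ha i hit)
    rw [hn]
    exact key n
  · rw [not_lt] at hit
    rcases Int.eq_nat_or_neg (a i) with ⟨n, hn | hn⟩
    · rw [hn]; exact key n
    · have h1 : C (a i) * w ^ i * y ^ (d - 2 * i) = n • (-(w ^ i * y ^ (d - 2 * i))) := by
        rw [hn, nsmul_eq_mul, mul_assoc]
        simp
      rw [h1]
      exact AddSubmonoid.nsmul_mem _ (neg_gen_mem hij hit) n

/-- rank at least four: the second gamma-number is nonnegative when `G2` is -/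
theorem FP_mem_three {d : ℕ} (hd : 4 ≤ d) {W : Finset α} (h : NP H d W) (hE : Eul H d W)
    (hG : 0 ≤ G2 H d W) : FP H W ∈ GT 3 d := by
  obtain ⟨a, ha, hpos⟩ := GT_coeffs (FP_mem_two h hE)
  obtain ⟨h0, h1, h2⟩ := expansion_coeff hd a ha
  rw [FP_coeff_zero] at h0
  rw [FP_coeff_one, ← h0] at h1
  have h3 := FP_coeff_two (H := H) W
  rw [h2, ← h0] at h3
  rw [G2] at hG
  have h4 : a 1 = (W.card : ℤ) - 2 * d := by linarith
  have h5 : 2 * a 2 = dg H W - (4 * d - 6) * W.card + 4 * d * (d - 2) := by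
    rw [h4] at h3
    linarith
  rw [ha]
  refine GT_of_coeffs a (fun i hi => ?_)
  have hi3 : i < 3 := by exact_mod_cast hi
  rcases Nat.lt_or_ge i 2 with h6 | h6
  · exact hpos i (by exact_mod_cast h6)
  · obtain rfl : i = 2 := by omega
    linarith

/-- every join factor has rank at most three, or at most `2 e + 6` or `3 e + 2` vertices,
`e` its rank -/
def Ke (H : SimpleGraph α) (W : Finset α) : Prop :=
  ∀ C ∈ comps H W, ∀ e, NP H e C → e ≤ 3 ∨ C.card ≤ 2 * e + 6 ∨ C.card ≤ 3 * e + 2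

theorem Ke.left {A B : Finset α} (hAB : Full H A B) (h : Ke H (A ∪ B)) : Ke H A :=
  fun C hC => h C (by rw [comps_union hAB]; exact Finset.mem_union_left _ hC)

theorem Ke.right {A B : Finset α} (hAB : Full H A B) (h : Ke H (A ∪ B)) : Ke H B :=
  fun C hC => h C (by rw [comps_union hAB]; exact Finset.mem_union_right _ hC)

theorem Ke.gal {d : ℕ} {W : Finset α} (h : NP H d W) (hE : Eul H d W) (hK : Ke H W) :
    FP H W ∈ GT 3 d := by
  revert hK
  refine join_induction' (H := H) (P := fun d W => Ke H W → FP H W ∈ GT 3 d) ?_ ?_ ?_ h hE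
  · intro _
    rw [FP_empty]
    exact one_mem_GT _
  · intro d W h hE hp _ hK
    by_cases hd : d + 1 ≤ 3
    · exact GT_of_lt (t := 2) (by omega) 3 (FP_mem_two h hE)
    rcases hK W (by rw [comps_prm hp]; exact Finset.mem_singleton_self W) (d + 1) h
      with h' | h' | h'
    · exact absurd h' hd
    · exact GT_mono le_top _ (gal_few stmF stmF2 h hE (by omega))
    · refine FP_mem_three (by omega) h hE ?_
      have h1 := G2_prime d h hp
      have h5 : (W.card : ℤ) ≤ 3 * ((d : ℤ) + 1) + 2 := by exact_mod_cast h'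
      have h6 : RR ((W.card : ℤ) + 1 - 3 * (d + 1)) = 0 := by
        rw [RR, if_pos]
        linarith
      rw [h6] at h1
      push_cast
      linarith
  · intro d₁ d₂ A B hA hB _ _ _ hAB h1 h2 hK
    rw [FP_join hAB]
    exact GT_mul (h1 (hK.left hAB)) (h2 (hK.right hAB))

variable {k : Type} [Field k] {n d : ℕ} {S : Finset (Finset (Fin n))}

theorem ke_of (h : IsFlagSphere k d S)
    (hC : ∀ C, IsFactor S C → (∀ F ∈ S, F ⊆ C → F.card ≤ 3) ∨
      ∃ F ∈ S, F ⊆ C ∧ C.card ≤ max (2 * F.card + 6) (3 * F.card + 2)) :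
    Ke (skel S) (vert S) := by
  intro C hCc e he
  rcases hC C (mem_comps_iff.1 hCc) with h1 | ⟨F, hF, hFC, h2⟩
  · obtain ⟨β, hβ, hβc, -⟩ := he.exists_facet
    obtain ⟨hβS, hβC⟩ := Y365.FS.face_of_cl h hCc hβ
    left
    rw [← hβc]
    exact h1 β hβS hβC
  · have h3 := he.card_le (Y365.FS.cl_of_face h hF hFC)
    right
    rcases le_max_iff.1 h2 with h4 | h4
    · left; omega
    · right; omega

/-- `γ₂ ≥ 0` for flag homology spheres with small join factors -/
theorem sphere_small (h : IsFlagSphere k d S) (hd : 4 ≤ d)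
    (hC : ∀ C, IsFactor S C → (∀ F ∈ S, F ⊆ C → F.card ≤ 3) ∨
      ∃ F ∈ S, F ⊆ C ∧ C.card ≤ max (2 * F.card + 6) (3 * F.card + 2))
    {γ : ℕ → ℤ} (hγ : IsGamma d S γ) : 0 ≤ γ 2 := by
  obtain ⟨a, ha, hpos⟩ := GT_coeffs ((ke_of h hC).gal h.np h.eul)
  rw [h.gamma_eq hγ ha 2 (by omega)]
  exact hpos 2 (by norm_cast)

end Pool.Agent.J6H30.Gal3
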