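import Pool.Agent.J6H30.Gal2.Edges

set_option autoImplicit false
set_option linter.unusedSectionVars false
set_option linter.unusedVariables false

/-! # Edges meeting a set minus boundary vertices -/

namespace Pool.Agent.J6H30.Gal3

open Pool.Agent.W497.FS Pool.Agent.TH417.Gal Pool.Agent.J6H30.Gal2

variable {α : Type} [DecidableEq α] {H : SimpleGraph α}

theorem dg_insert {J : Finset α} {w : α} (hw : w ∉ J) :
    dg H (insert w J) = dg H J + 2 * (lk H J w).card := by
  classical
  have h1 : lk H (insert w J) w = lk H J w := by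
    ext x
    rw [mem_lk, mem_lk, Finset.mem_insert]
    constructor
    · rintro ⟨rfl | h1, h2⟩
      · exact absurd rfl h2.ne
      · exact ⟨h1, h2⟩
    · rintro ⟨h1, h2⟩
      exact ⟨Or.inr h1, h2⟩
  have h2 : ∀ u ∈ J, (lk H (insert w J) u).card =
      (lk H J u).card + (if u ∈ lk H J w then 1 else 0) := by
    intro u hu
    by_cases h3 : H.Adj w u
    · rw [if_pos (mem_lk.2 ⟨hu, h3⟩)]
      have h4 : lk H (insert w J) u = insert w (lk H J u) := by
        ext x
        rw [mem_lk, Finset.mem_insert, Finset.mem_insert, mem_lk]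
        constructor
        · rintro ⟨h5 | h5, h6⟩
          · exact Or.inl h5
          · exact Or.inr ⟨h5, h6⟩
        · rintro (rfl | ⟨h5, h6⟩)
          · exact ⟨Or.inl rfl, h3.symm⟩
          · exact ⟨Or.inr h5, h6⟩
      rw [h4, Finset.card_insert_of_notMem (fun h => hw (lk_subset h))]
    · rw [if_neg (fun h => h3 (mem_lk.1 h).2)]
      have h4 : lk H (insert w J) u = lk H J u := by
        ext x
        rw [mem_lk, Finset.mem_insert, mem_lk]
        constructor
        · rintro ⟨rfl | h5, h6⟩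
          · exact absurd h6.symm h3
          · exact ⟨h5, h6⟩
        · rintro ⟨h5, h6⟩
          exact ⟨Or.inr h5, h6⟩
      rw [h4, add_zero]
  have h3 : J ∩ lk H J w = lk H J w := Finset.inter_eq_right.2 lk_subset
  rw [dg, Finset.sum_insert hw, h1, Finset.sum_congr rfl h2, Finset.sum_add_distrib,
    Finset.sum_ite_mem, h3, Finset.sum_const, smul_eq_mul, dg]
  ring

/-- twice the difference of the number of edges meeting `J` and the number of vertices outside `J`
adjacent to `J` -/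
noncomputable def Psi (H : SimpleGraph α) (W J : Finset α) : ℤ :=
  2 * ∑ w ∈ J, ((lk H W w).card : ℤ) - dg H J - 2 * (bdy H W J).card

open scoped Classical in
/-- the neighbours of `w` outside `J` with a neighbour in `J` -/
noncomputable def Fst (H : SimpleGraph α) (W J : Finset α) (w : α) : Finset α :=
  (lk H W w).filter (fun x => x ∉ J ∧ ∃ j ∈ J, H.Adj x j)

theorem mem_Fst {W J : Finset α} {w x : α} :
    x ∈ Fst H W J w ↔ x ∈ lk H W w ∧ x ∉ J ∧ ∃ j ∈ J, H.Adj x j := by
  classical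
  rw [Fst, Finset.mem_filter]

variable {W J : Finset α} {w : α}

theorem Psi_insert (hJ : J ⊆ W) (hw : w ∈ bdy H W J) :
    Psi H W (insert w J) = Psi H W J + 2 * (1 + (Fst H W J w).card) := by
  classical
  obtain ⟨hwW, hwJ, j0, hj0, hwj0⟩ := mem_bdy.1 hw
  set G : Finset α := (lk H W w).filter (fun x => x ∉ J ∧ ∀ j ∈ J, ¬ H.Adj x j) with hG
  have h1 : (lk H W w).card = (lk H J w).card + (Fst H W J w).card + G.card := by
    have e1 : lk H W w = (lk H J w ∪ Fst H W J w) ∪ G := by
      ext x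
      rw [Finset.mem_union, Finset.mem_union, mem_Fst, hG, Finset.mem_filter]
      constructor
      · intro hx
        by_cases hxJ : x ∈ J
        · exact Or.inl (Or.inl (mem_lk.2 ⟨hxJ, (mem_lk.1 hx).2⟩))
        · by_cases h2 : ∃ j ∈ J, H.Adj x j
          · exact Or.inl (Or.inr ⟨hx, hxJ, h2⟩)
          · push Not at h2
            exact Or.inr ⟨hx, hxJ, h2⟩
      · rintro ((h2 | h2) | h2)
        · exact mem_lk.2 ⟨hJ (mem_lk.1 h2).1, (mem_lk.1 h2).2⟩
        · exact h2.1
        · exact h2.1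
    have d1 : Disjoint (lk H J w) (Fst H W J w) := by
      rw [Finset.disjoint_left]
      intro x h2 h3
      exact (mem_Fst.1 h3).2.1 (lk_subset h2)
    have d2 : Disjoint (lk H J w ∪ Fst H W J w) G := by
      rw [Finset.disjoint_left]
      intro x h2 h3
      obtain ⟨h4, h5, h6⟩ := Finset.mem_filter.1 h3
      rcases Finset.mem_union.1 h2 with h7 | h7
      · exact h5 (lk_subset h7)
      · obtain ⟨-, -, j, hj, hxj⟩ := mem_Fst.1 h7
        exact h6 j hj hxj
    conv_lhs => rw [e1]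
    rw [Finset.card_union_of_disjoint d2, Finset.card_union_of_disjoint d1]
  have h2 : (bdy H W (insert w J)).card + 1 = (bdy H W J).card + G.card := by
    have e1 : bdy H W (insert w J) = (bdy H W J).erase w ∪ G := by
      ext x
      rw [mem_bdy, Finset.mem_union, Finset.mem_erase, mem_bdy, hG, Finset.mem_filter, mem_lk,
        Finset.mem_insert, not_or]
      constructor
      · rintro ⟨h3, ⟨h4, h5⟩, u, hu, hxu⟩
        by_cases h6 : ∃ j ∈ J, H.Adj x j
        · exact Or.inl ⟨h4, h3, h5, h6⟩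
        · rcases Finset.mem_insert.1 hu with rfl | hu
          · push Not at h6
            exact Or.inr ⟨⟨h3, hxu.symm⟩, h5, h6⟩
          · exact absurd ⟨u, hu, hxu⟩ h6
      · rintro (⟨h3, h4, h5, u, hu, hxu⟩ | ⟨⟨h3, h4⟩, h5, h6⟩)
        · exact ⟨h4, ⟨h3, h5⟩, u, Finset.mem_insert_of_mem hu, hxu⟩
        · exact ⟨h3, ⟨h4.ne.symm, h5⟩, w, Finset.mem_insert_self w J, h4.symm⟩
    have d1 : Disjoint ((bdy H W J).erase w) G := by
      rw [Finset.disjoint_left]
      intro x h3 h4
      obtain ⟨-, -, u, hu, hxu⟩ := mem_bdy.1 (Finset.mem_erase.1 h3).2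
      exact (Finset.mem_filter.1 h4).2.2 u hu hxu
    rw [e1, Finset.card_union_of_disjoint d1, Finset.card_erase_of_mem hw]
    have := Finset.card_pos.2 ⟨w, hw⟩
    omega
  rw [Psi, Psi, Finset.sum_insert hwJ, dg_insert hwJ, h1]
  have h3 : ((bdy H W (insert w J)).card : ℤ) = (bdy H W J).card + G.card - 1 := by
    have : (((bdy H W (insert w J)).card + 1 : ℕ) : ℤ) =
      (((bdy H W J).card + G.card : ℕ) : ℤ) := by rw [h2]
    push_cast at this
    linarith
  rw [h3]
  push_cast
  ring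

theorem Fst_or {D : ℕ} (hW : NP H (D + 2) W) (hJ : J ⊆ W) (hw : w ∈ bdy H W J) :
    2 * D ≤ (Fst H W J w).card ∨ (lk H W w).card ≤ (Fst H W J w).card + (lk H J w).card := by
  classical
  obtain ⟨hwW, hwJ, j0, hj0, hwj0⟩ := mem_bdy.1 hw
  have hM := hW.lk hwW
  have hQM : lk H J w ⊆ lk H W w := lk_mono hJ w
  by_cases hz : ∃ z ∈ lk H W w, z ∉ lk H J w ∧ ∀ q ∈ lk H J w, ¬ H.Adj z q
  · left
    have h1 := two_mul_le_bdy D hM hQM ⟨j0, mem_lk.2 ⟨hj0, hwj0⟩⟩ hz
    refine h1.trans (Finset.card_le_card ?_)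
    intro x hx
    obtain ⟨h2, h3, q, hq, hxq⟩ := mem_bdy.1 hx
    exact mem_Fst.2 ⟨h2, fun hxJ => h3 (mem_lk.2 ⟨hxJ, (mem_lk.1 h2).2⟩), q, (mem_lk.1 hq).1, hxq⟩
  · right
    push Not at hz
    have hsub : lk H W w ⊆ Fst H W J w ∪ lk H J w := by
      intro z hz1
      by_cases hzQ : z ∈ lk H J w
      · exact Finset.mem_union_right _ hzQ
      · obtain ⟨q, hq, hzq⟩ := hz z hz1 hzQ
        exact Finset.mem_union_left _ (mem_Fst.2 ⟨hz1, fun hzJ =>
          hzQ (mem_lk.2 ⟨hzJ, (mem_lk.1 hz1).2⟩), q, (mem_lk.1 hq).1, hzq⟩)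
    exact (Finset.card_le_card hsub).trans (Finset.card_union_le _ _)

theorem Psi_step {D : ℕ} (hW : NP H (D + 2) W) (hJ : J ⊆ W) (hw : w ∈ bdy H W J) :
    Psi H W J + 2 * (2 * D + 1) ≤ Psi H W (insert w J) ∨
      Psi H W J + 2 * (1 + (lk H W w).card - (lk H J w).card) ≤ Psi H W (insert w J) := by
  rw [Psi_insert hJ hw]
  rcases Fst_or hW hJ hw with h | h
  · left
    have : (2 * (D : ℤ)) ≤ (Fst H W J w).card := by exact_mod_cast h
    linarith
  · right
    have : ((lk H W w).card : ℤ) ≤ (Fst H W J w).card + (lk H J w).card := by exact_mod_cast h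
    linarith

theorem Psi_single (hw : w ∈ W) : Psi H W {w} = 0 := by
  have h1 : dg H {w} = 0 := by
    rw [dg, Finset.sum_singleton, Finset.card_eq_zero]
    apply Finset.eq_empty_of_forall_notMem
    intro x hx
    obtain ⟨h2, h3⟩ := mem_lk.1 hx
    exact h3.ne (Finset.mem_singleton.1 h2).symm
  have h2 : bdy H W {w} = lk H W w := by
    ext x
    rw [mem_bdy, mem_lk, Finset.mem_singleton]
    constructor
    · rintro ⟨h3, h4, u, hu, hxu⟩
      rw [Finset.mem_singleton] at hu
      exact ⟨h3, hu ▸ hxu.symm⟩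
    · rintro ⟨h3, h4⟩
      exact ⟨h3, h4.ne.symm, w, Finset.mem_singleton_self w, h4.symm⟩
  rw [Psi, Finset.sum_singleton, h1, h2]
  push_cast
  ring

/-- the upper bound coming from the vertex cuts -/
theorem Psi_upper {D : ℕ} (hW : NP H (D + 2) W) {v : α} (hv : v ∈ W) (hJ : J ⊆ nn H W v)
    (hne : J.Nonempty) :
    Psi H W J ≤ 2 * ∑ w ∈ J, ((lk H W w).card : ℤ) - dg H J - 4 * (D + 1) := by
  have h1 : 2 * (D + 1) ≤ (bdy H W J).card := by
    refine two_mul_le_bdy (D + 1) hW (fun x hx => (mem_nn.1 (hJ hx)).1) hne ⟨v, hv, ?_, ?_⟩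
    · intro hvJ
      exact (mem_nn.1 (hJ hvJ)).2.1 rfl
    · intro u hu
      exact (mem_nn.1 (hJ hu)).2.2
  have h2 : (2 * ((D : ℤ) + 1)) ≤ (bdy H W J).card := by exact_mod_cast h1
  rw [Psi]
  linarith

end Pool.Agent.J6H30.Gal3
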