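import Pool.Agent.J6H30.Gal3.Psi

set_option autoImplicit false
set_option linter.unusedSectionVars false
set_option linter.unusedVariables false

/-! # Connected sets with at most five vertices -/

namespace Pool.Agent.J6H30.Gal3

open Pool.Agent.W497.FS Pool.Agent.TH417.Gal Pool.Agent.J6H30.Gal2

variable {α : Type} [DecidableEq α] {H : SimpleGraph α}

/-- the connected sets, built up by adding neighbours -/
inductive Con (H : SimpleGraph α) : Finset α → Prop
  | single (w : α) : Con H {w}
  | step {J : Finset α} {w : α} : Con H J → w ∉ J → (∃ j ∈ J, H.Adj w j) → Con H (insert w J)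

theorem Con.nonempty {J : Finset α} (h : Con H J) : J.Nonempty := by
  cases h with
  | single w => exact Finset.singleton_nonempty w
  | step h1 h2 h3 => exact Finset.insert_nonempty _ _

theorem Con.star {c : α} (S : Finset α) : (∀ s ∈ S, H.Adj c s) → Con H (insert c S) := by
  induction S using Finset.induction_on with
  | empty => intro _; exact Con.single c
  | insert s S hs ih =>
    intro h
    rw [Finset.insert_comm]
    refine Con.step (ih (fun x hx => h x (Finset.mem_insert_of_mem hx))) ?_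
      ⟨c, Finset.mem_insert_self c S, (h s (Finset.mem_insert_self s S)).symm⟩
    rw [Finset.mem_insert, not_or]
    exact ⟨(h s (Finset.mem_insert_self s S)).ne.symm, hs⟩

theorem Con.exists_nbr {J : Finset α} (h : Con H J) : 2 ≤ J.card → ∀ y ∈ J, ∃ j ∈ J, H.Adj y j := by
  induction h with
  | single w => intro hc; rw [Finset.card_singleton] at hc; omega
  | @step J w h1 h2 h3 ih =>
    intro _ y hy
    obtain ⟨j, hj, hwj⟩ := h3
    rcases Finset.mem_insert.1 hy with rfl | hy
    · exact ⟨j, Finset.mem_insert_of_mem hj, hwj⟩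
    · by_cases hc : 2 ≤ J.card
      · obtain ⟨i, hi, hyi⟩ := ih hc y hy
        exact ⟨i, Finset.mem_insert_of_mem hi, hyi⟩
      · have hc1 : J.card = 1 := by
          have := Finset.card_pos.2 ⟨y, hy⟩
          omega
        obtain ⟨z, hz⟩ := Finset.card_eq_one.1 hc1
        rw [hz, Finset.mem_singleton] at hy hj
        rw [hy, ← hj]
        exact ⟨w, Finset.mem_insert_self _ _, hwj.symm⟩

variable {W : Finset α}

theorem card_lk_le {J : Finset α} {w : α} : (lk H J w).card ≤ J.card := Finset.card_le_card lk_subset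

theorem two_mul_card_le {D : ℕ} (hW : NP H (D + 2) W) {w : α} (hw : w ∈ W) :
    2 * (D + 1) ≤ (lk H W w).card := (hW.lk hw).two_mul_le

/-- at most three vertices -/
theorem good_three {D : ℕ} (hW : NP H (D + 2) W) {J : Finset α} (h : Con H J) : J ⊆ W →
    J.card ≤ 3 → 2 * ((J.card : ℤ) - 1) * (2 * D + 1) ≤ Psi H W J := by
  induction h with
  | single w =>
    intro hJ _
    rw [Psi_single (hJ (Finset.mem_singleton_self w)), Finset.card_singleton]
    norm_num
  | @step J w h1 h2 h3 ih =>
    intro hJ hc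
    rw [Finset.card_insert_of_notMem h2] at hc ⊢
    have hJW : J ⊆ W := (Finset.subset_insert w J).trans hJ
    have hwW : w ∈ W := hJ (Finset.mem_insert_self w J)
    have h4 := ih hJW (by omega)
    have h5 := Psi_step hW hJW (mem_bdy.2 ⟨hwW, h2, h3⟩)
    have h6 : ((lk H J w).card : ℤ) ≤ 2 := by
      have := card_lk_le (H := H) (J := J) (w := w)
      have h7 : (lk H J w).card ≤ 2 := by omega
      exact_mod_cast h7
    have h7 : (2 * ((D : ℤ) + 1)) ≤ (lk H W w).card := by exact_mod_cast two_mul_card_le hW hwW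
    push_cast
    rcases h5 with h5 | h5 <;> nlinarith

/-- removing a vertex of a connected set which is not a cut vertex -/
theorem via {D : ℕ} (hW : NP H (D + 2) W) {K : Finset α} (hK : K ⊆ W) {u : α} (hu : u ∈ K)
    (hn : ∃ j ∈ K.erase u, H.Adj u j)
    (hg : 2 * (((K.erase u).card : ℤ) - 1) * (2 * D + 1) ≤ Psi H W (K.erase u))
    (hbad : Psi H W K < 2 * ((K.card : ℤ) - 1) * (2 * D + 1)) :
    2 * ((K.card : ℤ) - 2) * (2 * D + 1) + 2 * (1 + (lk H W u).card - (lk H K u).card) ≤
      Psi H W K ∧ (lk H W u).card + 1 ≤ (lk H K u).card + 2 * D := by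
  have h1 : insert u (K.erase u) = K := Finset.insert_erase hu
  have h2 : lk H (K.erase u) u = lk H K u := by
    ext x
    rw [mem_lk, mem_lk, Finset.mem_erase]
    exact ⟨fun h => ⟨h.1.2, h.2⟩, fun h => ⟨⟨h.2.ne.symm, h.1⟩, h.2⟩⟩
  have h3 := Psi_step hW ((Finset.erase_subset u K).trans hK)
    (mem_bdy.2 ⟨hK hu, Finset.notMem_erase u K, hn⟩)
  rw [h1, h2] at h3
  have h4 : ((K.erase u).card : ℤ) = K.card - 1 := by
    have := Finset.card_erase_add_one hu
    have h5 : (((K.erase u).card + 1 : ℕ) : ℤ) = K.card := by rw [this]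
    push_cast at h5
    linarith
  rw [h4] at hg
  rcases h3 with h3 | h3
  · exfalso
    nlinarith
  · refine ⟨by nlinarith, ?_⟩
    have : ((lk H W u).card : ℤ) + 1 ≤ (lk H K u).card + 2 * D := by nlinarith
    exact_mod_cast this

theorem lk_erase_eq {J : Finset α} {w y : α} (hy : y ∈ J) (hwy : ¬ H.Adj w y)
    (hc : J.card ≤ (lk H J w).card + 1) : lk H J w = J.erase y := by
  refine Finset.eq_of_subset_of_card_le (fun x hx => ?_) ?_
  · obtain ⟨h1, h2⟩ := mem_lk.1 hx
    exact Finset.mem_erase.2 ⟨fun h => hwy (h ▸ h2), h1⟩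
  · rw [Finset.card_erase_of_mem hy]
    omega

theorem lk_full {J : Finset α} {w : α} (hc : J.card ≤ (lk H J w).card) : ∀ x ∈ J, H.Adj w x := by
  have : lk H J w = J := Finset.eq_of_subset_of_card_le lk_subset hc
  intro x hx
  rw [← this] at hx
  exact (mem_lk.1 hx).2

/-- all vertices can be removed if the last one is adjacent to all others -/
theorem rem_star {J : Finset α} (hJ : Con H J) {w : α} (hw : w ∉ J) (hf : ∀ x ∈ J, H.Adj w x) :
    ∀ u ∈ insert w J, Con H ((insert w J).erase u) ∧ ∃ j ∈ (insert w J).erase u, H.Adj u j := by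
  intro u hu
  by_cases huw : u = w
  · subst huw
    rw [Finset.erase_insert hw]
    obtain ⟨j, hj⟩ := hJ.nonempty
    exact ⟨hJ, j, hj, hf j hj⟩
  · have huJ : u ∈ J := (Finset.mem_insert.1 hu).resolve_left huw
    rw [Finset.erase_insert_of_ne (fun h => huw h.symm)]
    exact ⟨Con.star _ (fun s hs => hf s (Finset.mem_of_mem_erase hs)),
      w, Finset.mem_insert_self _ _, (hf u huJ).symm⟩

/-- four vertices -/
theorem good_four {D : ℕ} (hW : NP H (D + 2) W) {v : α} (hv : v ∈ W) {K : Finset α}
    (h : Con H K) (hK : K ⊆ nn H W v) (hc : K.card = 4) :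
    2 * ((K.card : ℤ) - 1) * (2 * D + 1) ≤ Psi H W K := by
  have hKW : K ⊆ W := fun x hx => (mem_nn.1 (hK hx)).1
  by_contra hbad
  push Not at hbad
  have key : ∀ u ∈ K, (Con H (K.erase u) ∧ ∃ j ∈ K.erase u, H.Adj u j) →
      2 * ((K.card : ℤ) - 2) * (2 * D + 1) + 2 * (1 + (lk H W u).card - (lk H K u).card) ≤
      Psi H W K ∧ (lk H W u).card + 1 ≤ (lk H K u).card + 2 * D := by
    intro u hu ⟨h1, h2⟩
    refine via hW hKW hu h2 (good_three hW h1 ((Finset.erase_subset u K).trans hKW) ?_) hbad
    rw [Finset.card_erase_of_mem hu]; omega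
  have hdeg : ∀ u ∈ K, (lk H K u).card ≤ 3 := by
    intro u hu
    have h1 : lk H K u ⊆ K.erase u := fun x hx =>
      Finset.mem_erase.2 ⟨(mem_lk.1 hx).2.ne.symm, (mem_lk.1 hx).1⟩
    have := Finset.card_le_card h1
    rw [Finset.card_erase_of_mem hu] at this
    omega
  have hall : ∀ u ∈ K, Con H (K.erase u) ∧ ∃ j ∈ K.erase u, H.Adj u j := by
    cases h with
    | single w => rw [Finset.card_singleton] at hc; omega
    | @step J w h1 h2 h3 =>
      rw [Finset.card_insert_of_notMem h2] at hc
      have hwK : w ∈ insert w J := Finset.mem_insert_self w J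
      have h4 := key w hwK (by rw [Finset.erase_insert h2]; exact ⟨h1, h3⟩)
      have h5 := two_mul_card_le hW (hKW hwK)
      have h6 : lk H (insert w J) w = lk H J w := by
        ext x
        rw [mem_lk, mem_lk, Finset.mem_insert]
        constructor
        · rintro ⟨rfl | h1, h2⟩
          · exact absurd rfl h2.ne
          · exact ⟨h1, h2⟩
        · rintro ⟨h1, h2⟩
          exact ⟨Or.inr h1, h2⟩
      rw [h6] at h4
      exact rem_star h1 h2 (lk_full (by omega))
  have hprop : ∀ u ∈ K, (lk H K u).card = 3 ∧ (lk H W u).card = 2 * (D + 1) := by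
    intro u hu
    have h1 := (key u hu (hall u hu)).2
    have h2 := hdeg u hu
    have h3 := two_mul_card_le hW (hKW hu)
    omega
  obtain ⟨u, hu⟩ := h.nonempty
  have h1 := (key u hu (hall u hu)).1
  have h2 := Psi_upper hW hv hK h.nonempty
  have h3 : ∑ w ∈ K, ((lk H W w).card : ℤ) = 4 * (2 * (D + 1)) := by
    rw [Finset.sum_congr rfl (fun w hw => by rw [(hprop w hw).2]), Finset.sum_const, hc]
    push_cast
    ring
  have h4 : (dg H K : ℤ) = 12 := by
    rw [dg, Finset.sum_congr rfl (fun w hw => (hprop w hw).1), Finset.sum_const, hc]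
    norm_num
  rw [h3, h4] at h2
  rw [(hprop u hu).1, (hprop u hu).2, hc] at h1
  push_cast at h1 h2
  linarith

/-- a complex of rank `r` with `2 r + 1` vertices: a clique with four vertices contains a
suspension vertex -/
theorem pent_clique {r : ℕ} {M S : Finset α} (h : NP H r M) (hc : M.card = 2 * r + 1) (hS : S ⊆ M)
    (hS4 : S.card = 4) (hcl : ∀ a ∈ S, ∀ b ∈ S, a ≠ b → H.Adj a b) :
    ∃ s ∈ S, (nn H M s).card = 1 := by
  by_contra hcon
  push Not at hcon
  have h2 : ∀ s ∈ S, 2 ≤ (nn H M s).card := by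
    intro s hs
    have h3 := Finset.card_pos.2 (h.nn_nonempty (hS hs))
    have h4 := hcon s hs
    omega
  obtain ⟨x, hx⟩ : S.Nonempty := by rw [← Finset.card_pos]; omega
  obtain ⟨C, hC, hxC⟩ := exists_comp (H := H) (hS hx)
  obtain ⟨hCM, hCp, hCadj⟩ := mem_comps.1 hC
  have hf : Full H C (M \ C) := fun a ha b hb =>
    hCadj a ha b (Finset.mem_sdiff.1 hb).1 (Finset.mem_sdiff.1 hb).2
  have hCB : C ∪ (M \ C) = M := Finset.union_sdiff_of_subset hCM
  have hM' : NP H r (C ∪ (M \ C)) := by rw [hCB]; exact h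
  obtain ⟨e, e', hee, hNC, hNB⟩ := hM'.split hf
  have hcard : M.card = C.card + (M \ C).card := by
    conv_lhs => rw [← hCB]
    exact Finset.card_union_of_disjoint hf.disjoint
  have hB2 := hNB.two_mul_le
  obtain ⟨e1, rfl⟩ := hNC.rank_pos hxC
  have hprm := Prm.three_mul_le hNC hCp
  have hnnC : ∀ y ∈ C, nn H M y = nn H C y := by
    intro y hy
    conv_lhs => rw [← hCB]
    exact nn_left hf hy
  have hnnB : ∀ y ∈ M \ C, nn H M y = nn H (M \ C) y := by
    intro y hy
    conv_lhs => rw [← hCB, Finset.union_comm]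
    exact nn_left hf.symm hy
  rcases e1 with _ | e0
  · have h3 : C.card = 2 := hNC.1
    have h4 := card_eq_lk_nn (H := H) hxC
    have h5 := h2 x hx
    rw [hnnC x hxC] at h5
    omega
  · have he0 : e0 = 0 := by omega
    subst he0
    have hBc : (M \ C).card = 2 * e' := by omega
    have hSC : S ⊆ C := by
      intro y hy
      by_contra hyC
      have hyB : y ∈ M \ C := Finset.mem_sdiff.2 ⟨hS hy, hyC⟩
      have h3 := h2 y hy
      rw [hnnB y hyB] at h3
      have h4 := card_eq_lk_nn (H := H) hyB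
      obtain ⟨e2, he2, hlk⟩ := hNB.lk' hyB
      have h5 := hlk.two_mul_le
      omega
    have h3 : S.erase x ⊆ lk H C x := by
      intro y hy
      obtain ⟨h4, h5⟩ := Finset.mem_erase.1 hy
      exact mem_lk.2 ⟨hSC h5, hcl x hx y h5 h4.symm⟩
    have h4 := Finset.card_le_card h3
    rw [Finset.card_erase_of_mem hx, NP2_card hNC x hxC] at h4
    omega

end Pool.Agent.J6H30.Gal3
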